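import Pool.Agent.helper60.DA.SpecJ

/-!
# Row dj:XI (a binomial identity with harmonic numbers)
-/

namespace Pool.Agent.helper60.DA

open Polynomial Finset Pool.Agent.helper60.DK

/-- `C(2c, c+j)` in `K`. -/
def XI_b (K : Type) [Field K] (c j : ℕ) : K := (((2 * c).choose (c + j) : ℕ) : K)

theorem XI_b_succ (K : Type) [Field K] (c j : ℕ) (h : j ≤ c) :
    ((c : K) + j + 1) * XI_b K c (j + 1) = ((c : K) - j) * XI_b K c j := by
  have h1 := Nat.choose_succ_right_eq (2 * c) (c + j)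
  have h2 : 2 * c - (c + j) = c - j := by omega
  rw [h2] at h1
  have h3 := congrArg (fun n : ℕ => (n : K)) h1
  simp only [Nat.cast_mul, Nat.cast_add, Nat.cast_one, Nat.cast_sub h] at h3
  unfold XI_b
  rw [← add_assoc]
  linear_combination h3

theorem XI_b_step (K : Type) [Field K] (m j : ℕ) (h : j ≤ m + 1) :
    XI_b K (m + 1) j * (((m : K) + 1) ^ 2 - (j : K) ^ 2) =
      (2 * (m : K) + 2) * (2 * m + 1) * XI_b K m j := by
  have h1 : (2 * m + 1 + 1) * (2 * m + 1).choose (m + j) =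
      (2 * m + 1 + 1).choose (m + j + 1) * (m + j + 1) := Nat.add_one_mul_choose_eq _ _
  have h2 : (2 * m).choose (m + j) * (2 * m + 1) =
      (2 * m + 1).choose (m + j) * (2 * m + 1 - (m + j)) := Nat.choose_mul_succ_eq _ _
  have h3 : 2 * m + 1 - (m + j) = m + 1 - j := by omega
  rw [h3] at h2
  have h1' := congrArg (fun n : ℕ => (n : K)) h1
  have h2' := congrArg (fun n : ℕ => (n : K)) h2
  simp only [Nat.cast_mul, Nat.cast_add, Nat.cast_one, Nat.cast_sub h, Nat.cast_ofNat] at h1' h2'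
  have e1 : XI_b K (m + 1) j = (((2 * m + 1 + 1).choose (m + j + 1) : ℕ) : K) := by
    unfold XI_b
    rw [show 2 * (m + 1) = 2 * m + 1 + 1 by ring, show m + 1 + j = m + j + 1 by ring]
  have e2 : XI_b K m j = (((2 * m).choose (m + j) : ℕ) : K) := rfl
  rw [e1, e2]
  linear_combination (-((m : K) + 1 - j)) * h1' - (2 * (m : K) + 2) * h2'

theorem XI_b_top (K : Type) [Field K] (m : ℕ) : XI_b K m (m + 1) = 0 := by
  unfold XI_b
  rw [Nat.choose_eq_zero_of_lt (by omega), Nat.cast_zero]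

theorem XI_alt (K : Type) [Field K] (c : ℕ) : ∀ n : ℕ, n ≤ c →
    2 * (c : K) * ∑ j ∈ range n, (-1) ^ j * XI_b K c (j + 1) =
      (c : K) * XI_b K c 0 - (-1) ^ n * ((c : K) - n) * XI_b K c n := by
  intro n
  induction n with
  | zero =>
    intro _
    simp
  | succ n ih =>
    intro hn
    have h1 := ih (by omega)
    have h2 := XI_b_succ K c n (by omega)
    rw [Finset.sum_range_succ, mul_add, h1, pow_succ]
    push_cast
    linear_combination (-1) ^ n * h2

theorem XI_lin (K : Type) [Field K] (c : ℕ) : ∀ n : ℕ, n ≤ c →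
    2 * (2 * (c : K) - 1) * ∑ j ∈ range n, (-1) ^ j * ((j : K) + 1) * XI_b K c (j + 1) =
      (c : K) * XI_b K c 0 - (-1) ^ n * (2 * (n : K) + 1) * ((c : K) - n) * XI_b K c n := by
  intro n
  induction n with
  | zero =>
    intro _
    simp
  | succ n ih =>
    intro hn
    have h1 := ih (by omega)
    have h2 := XI_b_succ K c n (by omega)
    rw [Finset.sum_range_succ, mul_add, h1, pow_succ]
    push_cast
    linear_combination (-1) ^ n * (2 * (n : K) + 1) * h2

theorem XI_har (K : Type) [Field K] (m : ℕ) :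
    ∑ k ∈ Finset.Ioc (m + 1) (2 * (m + 1)), (k : K)⁻¹ =
      ∑ k ∈ Finset.Ioc m (2 * m), (k : K)⁻¹ - ((m : K) + 1)⁻¹ + (2 * (m : K) + 1)⁻¹ +
        (2 * (m : K) + 2)⁻¹ := by
  have e1 : ∑ k ∈ Finset.Ioc m (2 * (m + 1)), (k : K)⁻¹ =
      ((m + 1 : ℕ) : K)⁻¹ + ∑ k ∈ Finset.Ioc (m + 1) (2 * (m + 1)), (k : K)⁻¹ := by
    rw [← Finset.sum_Ioc_consecutive (fun k : ℕ => (k : K)⁻¹) (show m ≤ m + 1 by omega)
      (show m + 1 ≤ 2 * (m + 1) by omega)]
    congr 1
    rw [Finset.sum_Ioc_succ_top (le_refl m)]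
    simp
  have e2 : ∑ k ∈ Finset.Ioc m (2 * (m + 1)), (k : K)⁻¹ =
      ∑ k ∈ Finset.Ioc m (2 * m), (k : K)⁻¹ + ((2 * m + 1 : ℕ) : K)⁻¹ +
        ((2 * m + 1 + 1 : ℕ) : K)⁻¹ := by
    rw [show 2 * (m + 1) = 2 * m + 1 + 1 by ring, Finset.sum_Ioc_succ_top (by omega),
      Finset.sum_Ioc_succ_top (by omega)]
  rw [e2] at e1
  push_cast at e1
  have e3 : (2 * (m : K) + 1 + 1) = 2 * (m : K) + 2 := by ring
  rw [e3] at e1
  linear_combination -e1

theorem XI_main (K : Type) [Field K] : ∀ c : ℕ, (∀ k : ℕ, 1 ≤ k → k ≤ 2 * c → (k : K) ≠ 0) →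
    ∑ j ∈ range c, (-1) ^ j * XI_b K c (j + 1) * ((j : K) + 1)⁻¹ =
      XI_b K c 0 * ∑ k ∈ Finset.Ioc c (2 * c), (k : K)⁻¹ := by
  intro c
  induction c with
  | zero =>
    intro _
    simp
  | succ m ih =>
    intro hk
    have h0 := ih fun k h1 h2 => hk k h1 (by omega)
    have hm1 : ((m : K) + 1) ≠ 0 := by
      have := hk (m + 1) (by omega) (by omega)
      push_cast at this
      exact this
    have h21 : (2 * (m : K) + 1) ≠ 0 := by
      have := hk (2 * m + 1) (by omega) (by omega)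
      push_cast at this
      exact this
    have h22 : (2 * (m : K) + 2) ≠ 0 := by
      have := hk (2 * m + 2) (by omega) (by omega)
      push_cast at this
      exact this
    have h2 : (2 : K) ≠ 0 := by
      have := hk 2 (by omega) (by omega)
      push_cast at this
      exact this
    have hl := XI_lin K (m + 1) (m + 1) le_rfl
    rw [sub_self, mul_zero, zero_mul, sub_zero] at hl
    have hb0 := XI_b_step K m 0 (by omega)
    have hext : ∑ j ∈ range (m + 1), (-1) ^ j * XI_b K m (j + 1) * ((j : K) + 1)⁻¹ =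
        XI_b K m 0 * ∑ k ∈ Finset.Ioc m (2 * m), (k : K)⁻¹ := by
      rw [Finset.sum_range_succ, XI_b_top, mul_zero, zero_mul, add_zero, h0]
    have hsum : ((m : K) + 1) ^ 2 *
        ∑ j ∈ range (m + 1), (-1) ^ j * XI_b K (m + 1) (j + 1) * ((j : K) + 1)⁻¹ =
        (2 * (m : K) + 2) * (2 * m + 1) *
          ∑ j ∈ range (m + 1), (-1) ^ j * XI_b K m (j + 1) * ((j : K) + 1)⁻¹ +
        ∑ j ∈ range (m + 1), (-1) ^ j * ((j : K) + 1) * XI_b K (m + 1) (j + 1) := by
      rw [Finset.mul_sum, Finset.mul_sum, ← Finset.sum_add_distrib]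
      refine Finset.sum_congr rfl fun j hj => ?_
      have hj' : j ≤ m := by
        have := Finset.mem_range.1 hj
        omega
      have h3 := XI_b_step K m (j + 1) (by omega)
      have hj1 : ((j : K) + 1) ≠ 0 := by
        have := hk (j + 1) (by omega) (by omega)
        push_cast at this
        exact this
      push_cast at h3
      have h4 : ((j : K) + 1)⁻¹ * ((j : K) + 1) = 1 := inv_mul_cancel₀ hj1
      linear_combination ((-1) ^ j * ((j : K) + 1)⁻¹) * h3 +
        ((-1) ^ j * XI_b K (m + 1) (j + 1) * ((j : K) + 1)) * h4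
    rw [hext] at hsum
    rw [XI_har]
    push_cast at hl hb0
    have hl' : 2 * (2 * (m : K) + 1) *
        ∑ j ∈ range (m + 1), (-1) ^ j * ((j : K) + 1) * XI_b K (m + 1) (j + 1) =
        ((m : K) + 1) * XI_b K (m + 1) 0 := by
      linear_combination hl
    have hm2 : ((m : K) + 1) ^ 2 ≠ 0 := pow_ne_zero 2 hm1
    have hn : 2 * (2 * (m : K) + 1) * ((m : K) + 1) ^ 2 ≠ 0 :=
      mul_ne_zero (mul_ne_zero h2 h21) hm2
    apply mul_left_cancel₀ hn
    have hi1 : ((m : K) + 1)⁻¹ * ((m : K) + 1) = 1 := inv_mul_cancel₀ hm1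
    have hi2 : (2 * (m : K) + 1)⁻¹ * (2 * (m : K) + 1) = 1 := inv_mul_cancel₀ h21
    have hi3 : (2 * (m : K) + 2)⁻¹ * (2 * (m : K) + 2) = 1 := inv_mul_cancel₀ h22
    generalize ∑ k ∈ Finset.Ioc m (2 * m), (k : K)⁻¹ = D at *
    generalize ∑ j ∈ range (m + 1), (-1) ^ j * ((j : K) + 1) * XI_b K (m + 1) (j + 1) = L at *
    generalize ∑ j ∈ range (m + 1), (-1) ^ j * XI_b K (m + 1) (j + 1) * ((j : K) + 1)⁻¹ = T at *
    generalize XI_b K (m + 1) 0 = B at *
    generalize XI_b K m 0 = C at *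
    generalize ((m : K) + 1)⁻¹ = i1 at *
    generalize (2 * (m : K) + 1)⁻¹ = i2 at *
    generalize (2 * (m : K) + 2)⁻¹ = i3 at *
    generalize (m : K) = M at *
    linear_combination 2 * (2 * M + 1) * hsum + hl' - 2 * (2 * M + 1) * D * hb0
      + 2 * (2 * M + 1) * (M + 1) * B * hi1 - 2 * (M + 1) ^ 2 * B * hi2
      - (2 * M + 1) * (M + 1) * B * hi3

theorem XI : XI_stmt := by
  intro K _ c hc hk
  have hc0 : (c : K) ≠ 0 := hk c hc (by omega)
  have h2 : (2 : K) ≠ 0 := by
    have := hk 2 (by omega) (by omega)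
    push_cast at this
    exact this
  rw [← Finset.sum_range_reflect]
  have e : ∀ j ∈ range c, (-1 : K) ^ (c - (c - 1 - j) - 1) *
      (((2 * c - 1).choose (c - 1 - j) : ℕ) : K) * (((c - (c - 1 - j) : ℕ) : K))⁻¹ =
      (2 * (c : K))⁻¹ * (c * ((-1) ^ j * XI_b K c (j + 1) * ((j : K) + 1)⁻¹) +
        (-1) ^ j * XI_b K c (j + 1)) := by
    intro j hj
    have hj' := Finset.mem_range.1 hj
    have e1 : c - (c - 1 - j) - 1 = j := by omega
    have e2 : c - (c - 1 - j) = j + 1 := by omega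
    have e3 : (2 * c - 1).choose (c - 1 - j) = (2 * c - 1).choose (c + j) := by
      rw [← Nat.choose_symm (show c + j ≤ 2 * c - 1 by omega)]
      congr 1
      omega
    rw [e1, e2, e3]
    have h3 : (2 * c - 1 + 1) * (2 * c - 1).choose (c + j) =
      (2 * c - 1 + 1).choose (c + j + 1) * (c + j + 1) := Nat.add_one_mul_choose_eq _ _
    have h4 : 2 * c - 1 + 1 = 2 * c := by omega
    rw [h4] at h3
    have h5 := congrArg (fun n : ℕ => (n : K)) h3
    simp only [Nat.cast_mul, Nat.cast_add, Nat.cast_one, Nat.cast_ofNat] at h5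
    have h6 : XI_b K c (j + 1) = (((2 * c).choose (c + j + 1) : ℕ) : K) := rfl
    rw [← h6] at h5
    have hj1 : ((j : K) + 1) ≠ 0 := by
      have := hk (j + 1) (by omega) (by omega)
      push_cast at this
      exact this
    push_cast
    field_simp
    linear_combination h5
  rw [Finset.sum_congr rfl e, ← Finset.mul_sum, Finset.sum_add_distrib, ← Finset.mul_sum,
    XI_main K c hk]
  have ha := XI_alt K c c le_rfl
  rw [sub_self, mul_zero, zero_mul, sub_zero] at ha
  have hb : ∑ j ∈ range c, (-1) ^ j * XI_b K c (j + 1) = XI_b K c 0 / 2 := by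
    rw [eq_div_iff h2]
    apply mul_left_cancel₀ hc0
    linear_combination ha
  have hX : XI_b K c 0 = (((2 * c).choose c : ℕ) : K) := rfl
  have h4 : (4 : K) ≠ 0 := by
    have h5 : (4 : K) = 2 * 2 := by norm_num
    rw [h5]
    exact mul_ne_zero h2 h2
  rw [hb, hX]
  field_simp
  ring

end Pool.Agent.helper60.DA
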